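import Mathlib
import Pool.Agent.R906.OSForce

set_option autoImplicit false

/-!
# The Ostaszewski square at a successor cardinal `λ` does not imply `λ ^ < λ = λ`
-/

namespace Pool.Agent.Results.MP_90fc86_lc.SquareWithoutCardinalArithmetic

open Cardinal Pool.Agent.Helper669.Forcing Pool.Agent.Helper669.K Pool.Agent.R583.DDefs
  Pool.Agent.R583.ODefs Pool.Agent.R906.OS

/-- Let `λ = μ⁺` be a successor cardinal. There is a forcing notion `P` such that every condition
forces: `λ` and `λ⁺` are regular cardinals; every proper initial segment of `λ` is an image of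
`μ` (so `λ` is still the successor of `μ`); every proper initial segment of `λ⁺` is an image of
`λ` (so `λ⁺` is still the successor of `λ`); the Ostaszewski square holds at `λ`; and if
`λ ^ μ > λ` in the ground model, then there are `λ⁺` many different functions from `μ` to `λ`
(so `λ ^ < λ > λ` in the extension). -/
theorem result (μ : Cardinal.{0}) (hμ : ℵ₀ ≤ μ) :
    ∃ (P : Type) (_ : Preorder P), Nonempty P ∧ ∀ p : P,
      p ∈ StaysRegular P (Order.succ μ) ∧
      p ∈ StaysRegular P (Order.succ (Order.succ μ)) ∧
      p ∈ (fall fun i : (Order.succ μ).ord.ToType => FImage P μ.ord.ToType (Set.Iic i)) ∧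
      p ∈ (fall fun x : (Order.succ (Order.succ μ)).ord.ToType =>
        FImage P (Order.succ μ).ord.ToType (Set.Iic x)) ∧
      p ∈ FOstaszewski P (Order.succ μ).ord.ToType (Order.succ (Order.succ μ)).ord.ToType ∧
      (Order.succ μ < Order.succ μ ^ μ →
        p ∈ FManyFun P (Order.succ (Order.succ μ)).ord.ToType μ.ord.ToType
          (Order.succ μ).ord.ToType) := by
  have hreg : (Order.succ μ).IsRegular := Cardinal.isRegular_succ hμ
  have hinf : ℵ₀ ≤ Order.succ μ := hreg.aleph0_le
  have hreg2 : (Order.succ (Order.succ μ)).IsRegular := Cardinal.isRegular_succ hinf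
  have H := hyp hinf
  have hcard : #(Order.succ μ).ord.ToType = Order.succ μ := mk_ord_toType _
  obtain ⟨x0⟩ : Nonempty (Order.succ (Order.succ μ)).ord.ToType := by
    rw [← Cardinal.mk_ne_zero_iff, mk_ord_toType]
    exact hreg2.pos.ne'
  refine ⟨Cond (Order.succ (Order.succ μ)).ord.ToType (Order.succ μ).ord.ToType, inferInstance,
    ?_, fun p => ⟨?_, ?_, ?_, ?_, ?_, ?_⟩⟩
  · obtain ⟨t, -⟩ := H.exists_len x0
    exact ⟨t⟩
  · refine staysRegular H hreg (fun ν hν => ?_) p
    rw [hcard]
    exact hν.le
  · refine staysRegular H hreg2 (fun ν hν => ?_) p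
    rw [hcard]
    exact Order.lt_succ_iff.1 hν
  · intro i
    obtain ⟨s, hs⟩ := exists_surj hμ i
    exact image_ground s hs p
  · intro x
    obtain ⟨s, hs⟩ := exists_surj hinf x
    exact image_ground s hs p
  · exact ostaszewski H p
  · intro h
    have h1 : #(Order.succ (Order.succ μ)).ord.ToType ≤
        #(μ.ord.ToType → (Order.succ μ).ord.ToType) := by
      rw [mk_ord_toType, ← Cardinal.power_def, mk_ord_toType, mk_ord_toType]
      exact Order.succ_le_of_lt h
    obtain ⟨F⟩ := (Cardinal.le_def _ _).1 h1
    exact manyFun_ground F F.injective p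

end Pool.Agent.Results.MP_90fc86_lc.SquareWithoutCardinalArithmetic
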